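import Mathlib

/-!
# Cross-intersecting pairs of projective subspaces (`MP_59f694_co`)

If `U_1, …, U_m`, `V_1, …, V_m` are nonzero subspaces of `F^(n+1)` with `U_i ∩ V_i = 0` and
`U_i ∩ V_j ≠ 0` for `i < j`, then `m ≤ 2^(n+1) - 2`; more precisely at most `C(n+1, d)` of the
`U_i` have dimension `d`.
-/

namespace Pool.Agent.Results.MP_59f694_co.CrossIntersecting

open Module

universe u

section

variable {F : Type u} [Field F]

/-- For a subspace `W` of `F^N` whose quotient has dimension `d` there is an alternating form in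
`d` variables, which vanishes on a basis of a `d`-dimensional subspace `U` if and only if `U` meets
`W` nontrivially. -/
lemma exists_form {N d : ℕ} (W : Submodule F (Fin N → F))
    (hW : finrank F ((Fin N → F) ⧸ W) = d) :
    ∃ φ : (Fin N → F) [⋀^Fin d]→ₗ[F] F,
      ∀ (U : Submodule F (Fin N → F)) (b : Basis (Fin d) F U),
        (U ⊓ W = ⊥ → φ (fun k => (b k : Fin N → F)) ≠ 0) ∧
        (U ⊓ W ≠ ⊥ → φ (fun k => (b k : Fin N → F)) = 0) := by
  classical
  let q : Basis (Fin d) F ((Fin N → F) ⧸ W) := finBasisOfFinrankEq F _ hW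
  refine ⟨q.det.compLinearMap W.mkQ, fun U b => ⟨fun h => ?_, fun h => ?_⟩⟩
  · have hli : LinearIndependent F (W.mkQ ∘ fun k => (b k : Fin N → F)) := by
      have h1 : LinearIndependent F (fun k => (b k : Fin N → F)) :=
        b.linearIndependent.map' U.subtype (Submodule.ker_subtype U)
      apply h1.map
      have hspan : Submodule.span F (Set.range (fun k => (b k : Fin N → F))) = U := by
        have h2 : (fun k => (b k : Fin N → F)) = U.subtype ∘ b := rfl
        rw [h2, Set.range_comp, Submodule.span_image, b.span_eq, Submodule.map_subtype_top]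
      rw [hspan, Submodule.ker_mkQ, disjoint_iff]
      exact h
    have hspan := hli.span_eq_top_of_card_eq_finrank' (by simp [hW])
    have := (Basis.is_basis_iff_det q).1 ⟨hli, hspan⟩
    simpa [AlternatingMap.compLinearMap_apply, Function.comp_def] using this.ne_zero
  · rw [AlternatingMap.compLinearMap_apply]
    apply AlternatingMap.map_linearDependent
    intro hli
    apply h
    rw [Submodule.eq_bot_iff]
    intro x hx
    obtain ⟨hxU, hxW⟩ := Submodule.mem_inf.1 hx
    have h1 : ∑ k, b.repr ⟨x, hxU⟩ k • (b k : Fin N → F) = x := by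
      have h2 := congrArg (fun y : U => (y : Fin N → F)) (b.sum_repr ⟨x, hxU⟩)
      simpa only [Submodule.coe_sum, Submodule.coe_smul] using h2
    have hsum : ∑ k, b.repr ⟨x, hxU⟩ k • W.mkQ (b k : Fin N → F) = 0 := by
      have h3 : W.mkQ (∑ k, b.repr ⟨x, hxU⟩ k • (b k : Fin N → F)) = 0 := by
        rw [h1]; simpa using hxW
      rw [map_sum] at h3
      simpa only [map_smul] using h3
    have h4 := Fintype.linearIndependent_iff.1 hli _ hsum
    rw [← h1]
    apply Finset.sum_eq_zero
    intro k _
    rw [h4 k, zero_smul]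

/-- The space of alternating forms in `d` variables on `F^N` has dimension `C(N, d)`. -/
lemma finrank_alt (N d : ℕ) : finrank F ((Fin N → F) [⋀^Fin d]→ₗ[F] F) = N.choose d := by
  rw [(exteriorPower.alternatingMapLinearEquiv (R := F) (M := Fin N → F) (N := F)
    (n := d)).finrank_eq]
  change finrank F (Module.Dual F (⋀[F]^d (Fin N → F))) = _
  rw [Subspace.dual_finrank_eq, exteriorPower.finrank_eq]
  simp

/-- Skew Bollobás theorem in a fixed dimension `d`. -/
lemma class_le {N m d : ℕ} (U V : Fin m → Submodule F (Fin N → F))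
    (h1 : ∀ i, U i ⊓ V i = ⊥) (h2 : ∀ i j, i < j → U i ⊓ V j ≠ ⊥) :
    (Finset.univ.filter (fun i => finrank F (U i) = d)).card ≤ N.choose d := by
  classical
  -- complements
  have hW : ∀ i, ∃ W : Submodule F (Fin N → F), V i ≤ W ∧ IsCompl W (U i) := fun i =>
    (disjoint_iff.2 (by rw [inf_comm]; exact h1 i) : Disjoint (V i) (U i)).exists_isCompl
  choose W hVW hWU using hW
  set S := Finset.univ.filter (fun i => finrank F (U i) = d) with hS
  have hdim : ∀ i : S, finrank F ((Fin N → F) ⧸ W i) = d := by
    intro i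
    have hi : finrank F (U i) = d := (Finset.mem_filter.1 i.2).2
    rw [(Submodule.quotientEquivOfIsCompl _ _ (hWU i)).finrank_eq, hi]
  have hb : ∀ i : S, Nonempty (Basis (Fin d) F (U i)) := fun i =>
    ⟨finBasisOfFinrankEq F _ (Finset.mem_filter.1 i.2).2⟩
  choose φ hφ using fun i : S => exists_form (W i) (hdim i)
  let b : ∀ i : S, Basis (Fin d) F (U i) := fun i => (hb i).some
  have hdiag : ∀ i : S, φ i (fun k => (b i k : Fin N → F)) ≠ 0 := fun i =>
    (hφ i (U i) (b i)).1 (by rw [inf_comm]; exact (hWU i).inf_eq_bot)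
  have htri : ∀ i j : S, i.1 < j.1 → φ j (fun k => (b i k : Fin N → F)) = 0 := by
    intro i j hij
    refine (hφ j (U i) (b i)).2 fun h => h2 i j hij ?_
    rw [eq_bot_iff, ← h]
    exact inf_le_inf_left _ (hVW j)
  have hli : LinearIndependent F φ := by
    rw [Fintype.linearIndependent_iff]
    intro g hg
    by_contra hne
    push Not at hne
    -- the smallest index with nonzero coefficient
    let T := (Finset.univ : Finset S).filter (fun i => g i ≠ 0)
    have hT : T.Nonempty := by
      obtain ⟨i, hi⟩ := hne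
      exact ⟨i, by simp [T, hi]⟩
    obtain ⟨i, hiT, hmin⟩ := T.exists_min_image (fun i => i.1) hT
    have hgi : g i ≠ 0 := (Finset.mem_filter.1 hiT).2
    have h3 : ∑ j, g j * φ j (fun k => (b i k : Fin N → F)) = 0 := by
      let ev : ((Fin N → F) [⋀^Fin d]→ₗ[F] F) →ₗ[F] F :=
        { toFun := fun ψ => ψ (fun k => (b i k : Fin N → F))
          map_add' := fun _ _ => rfl
          map_smul' := fun _ _ => rfl }
      have h4 := congrArg ev hg
      rw [map_sum, map_zero] at h4
      simp only [map_smul, smul_eq_mul] at h4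
      exact h4
    rw [Finset.sum_eq_single i] at h3
    · exact (mul_ne_zero hgi (hdiag i)) h3
    · intro j _ hji
      by_cases hgj : g j = 0
      · rw [hgj, zero_mul]
      · have h4 : i.1 ≤ j.1 := hmin j (by simp [T, hgj])
        have h5 : i.1 < j.1 := lt_of_le_of_ne h4 fun h => hji (Subtype.ext h.symm)
        rw [htri i j h5, mul_zero]
    · intro h; exact absurd (Finset.mem_univ i) h
  have hfin : Module.Finite F ((Fin N → F) [⋀^Fin d]→ₗ[F] F) :=
    Module.Finite.equiv (exteriorPower.alternatingMapLinearEquiv (R := F) (M := Fin N → F) (N := F)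
      (n := d)).symm
  have := hli.fintype_card_le_finrank
  rw [finrank_alt] at this
  simpa using this

end

/-- **Cross-intersecting pairs of projective subspaces.**  Let `F` be a field and `(U_i, V_i)`,
`1 ≤ i ≤ m`, pairs of nonzero subspaces of `F^(n+1)` with `U_i ∩ V_i = 0` for all `i` and
`U_i ∩ V_j ≠ 0` for `i < j`.  Then `m ≤ 2^(n+1) - 2`. -/
theorem result : ∀ (F : Type u) [Field F] (n m : ℕ) (U V : Fin m → Submodule F (Fin (n + 1) → F)),
    (∀ i, U i ≠ ⊥) → (∀ i, V i ≠ ⊥) → (∀ i, U i ⊓ V i = ⊥) →
    (∀ i j, i < j → U i ⊓ V j ≠ ⊥) → m ≤ 2 ^ (n + 1) - 2 := by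
  classical
  intro F _ n m U V hU hV h1 h2
  have hrange : ∀ i, finrank F (U i) ∈ Finset.Ioo 0 (n + 1) := by
    intro i
    rw [Finset.mem_Ioo]
    constructor
    · rw [Nat.pos_iff_ne_zero]
      intro h
      exact hU i (Submodule.finrank_eq_zero.1 h)
    · have h3 : finrank F (V i) ≠ 0 := fun h => hV i (Submodule.finrank_eq_zero.1 h)
      have h4 := Submodule.finrank_add_finrank_le_of_disjoint (disjoint_iff.2 (h1 i))
      rw [finrank_fin_fun] at h4
      omega
  have hcard : m = ∑ d ∈ Finset.Ioo 0 (n + 1),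
      (Finset.univ.filter (fun i : Fin m => finrank F (U i) = d)).card := by
    have := Finset.card_eq_sum_card_fiberwise (s := (Finset.univ : Finset (Fin m)))
      (t := Finset.Ioo 0 (n + 1)) (f := fun i => finrank F (U i)) (fun i _ => hrange i)
    simpa using this
  have hsum : ∑ d ∈ Finset.Ioo 0 (n + 1), (n + 1).choose d = 2 ^ (n + 1) - 2 := by
    have h5 := Nat.sum_range_choose (n + 1)
    rw [Finset.sum_range_succ, Finset.sum_range_succ'] at h5
    have h6 : ∑ d ∈ Finset.Ioo 0 (n + 1), (n + 1).choose d =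
        ∑ k ∈ Finset.range n, (n + 1).choose (k + 1) := by
      rw [Finset.sum_bij (fun d _ => d - 1)]
      · intro a ha; rw [Finset.mem_Ioo] at ha; rw [Finset.mem_range]; omega
      · intro a ha b hb hab; rw [Finset.mem_Ioo] at ha hb; omega
      · intro b hb; rw [Finset.mem_range] at hb
        exact ⟨b + 1, by rw [Finset.mem_Ioo]; omega, Nat.add_sub_cancel b 1⟩
      · intro a ha; rw [Finset.mem_Ioo] at ha
        rw [show a - 1 + 1 = a by omega]
    rw [h6]
    simp only [Nat.choose_zero_right, Nat.choose_self] at h5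
    omega
  calc m = ∑ d ∈ Finset.Ioo 0 (n + 1),
      (Finset.univ.filter (fun i : Fin m => finrank F (U i) = d)).card := hcard
    _ ≤ ∑ d ∈ Finset.Ioo 0 (n + 1), (n + 1).choose d :=
        Finset.sum_le_sum fun d _ => class_le U V h1 h2
    _ = 2 ^ (n + 1) - 2 := hsum

end Pool.Agent.Results.MP_59f694_co.CrossIntersecting
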